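import Mathlib

/-!
# Rotated copies of the triangular lattice: when is their union a dense forest?
-/

set_option autoImplicit false

namespace Pool.Agent.N758.TBG

open Complex

/-- the primitive sixth root of unity `(1/2, √3/2)` -/
noncomputable def ω : ℂ := ⟨1 / 2, √3 / 2⟩

/-- the triangular lattice -/
def hex : Set ℂ := {z | ∃ m n : ℤ, z = m + n * ω}

theorem ω_re : ω.re = 1 / 2 := rfl
theorem ω_im : ω.im = √3 / 2 := rfl

theorem ω_sq : ω * ω = ω - 1 := by
  have h3 : √3 * √3 = 3 := Real.mul_self_sqrt (by norm_num)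
  apply Complex.ext
  · simp [ω]; nlinarith
  · simp [ω]; ring

theorem conj_ω : (starRingEnd ℂ) ω = 1 - ω := by
  apply Complex.ext
  · simp [ω]; norm_num
  · simp [ω]

theorem norm_ω : ‖ω‖ = 1 := by
  have h3 : √3 * √3 = 3 := Real.mul_self_sqrt (by norm_num)
  have : ‖ω‖ ^ 2 = 1 := by
    rw [← Complex.normSq_eq_norm_sq, Complex.normSq_apply, ω_re, ω_im]
    nlinarith
  nlinarith [norm_nonneg ω]

theorem hex_int (m : ℤ) : ((m : ℂ)) ∈ hex := ⟨m, 0, by simp⟩
theorem hex_zero : (0 : ℂ) ∈ hex := ⟨0, 0, by simp⟩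
theorem hex_one : (1 : ℂ) ∈ hex := ⟨1, 0, by simp⟩
theorem hex_ω : ω ∈ hex := ⟨0, 1, by simp⟩

theorem hex_add {a b : ℂ} (ha : a ∈ hex) (hb : b ∈ hex) : a + b ∈ hex := by
  obtain ⟨m, n, rfl⟩ := ha
  obtain ⟨p, q, rfl⟩ := hb
  exact ⟨m + p, n + q, by push_cast; ring⟩

theorem hex_neg {a : ℂ} (ha : a ∈ hex) : -a ∈ hex := by
  obtain ⟨m, n, rfl⟩ := ha
  exact ⟨-m, -n, by push_cast; ring⟩

theorem hex_sub {a b : ℂ} (ha : a ∈ hex) (hb : b ∈ hex) : a - b ∈ hex := by
  rw [sub_eq_add_neg]; exact hex_add ha (hex_neg hb)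

theorem hex_mul {a b : ℂ} (ha : a ∈ hex) (hb : b ∈ hex) : a * b ∈ hex := by
  obtain ⟨m, n, rfl⟩ := ha
  obtain ⟨p, q, rfl⟩ := hb
  refine ⟨m * p - n * q, m * q + n * p + n * q, ?_⟩
  have : ((m : ℂ) + n * ω) * (p + q * ω) = m * p + (m * q + n * p) * ω + n * q * (ω * ω) := by
    ring
  rw [this, ω_sq]; push_cast; ring

theorem hex_conj {a : ℂ} (ha : a ∈ hex) : (starRingEnd ℂ) a ∈ hex := by
  obtain ⟨m, n, rfl⟩ := ha
  refine ⟨m + n, -n, ?_⟩
  rw [map_add, map_mul, conj_ω]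
  simp
  ring

theorem hex_countable : hex.Countable := by
  have : hex = Set.range fun p : ℤ × ℤ => (p.1 : ℂ) + p.2 * ω := by
    ext z
    constructor
    · rintro ⟨m, n, rfl⟩; exact ⟨(m, n), rfl⟩
    · rintro ⟨⟨m, n⟩, rfl⟩; exact ⟨m, n, rfl⟩
  rw [this]
  exact Set.countable_range _

theorem hex_re (m n : ℤ) : ((m : ℂ) + n * ω).re = m + n / 2 := by
  have : ((m : ℂ) + n * ω) = ((m : ℝ) : ℂ) + ((n : ℝ) : ℂ) * ω := by push_cast; ring
  rw [this, Complex.add_re, Complex.re_ofReal_mul, Complex.ofReal_re, ω_re]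
  ring

theorem hex_im (m n : ℤ) : ((m : ℂ) + n * ω).im = n * (√3 / 2) := by
  have : ((m : ℂ) + n * ω) = ((m : ℝ) : ℂ) + ((n : ℝ) : ℂ) * ω := by push_cast; ring
  rw [this, Complex.add_im, Complex.im_ofReal_mul, Complex.ofReal_im, ω_im]
  ring

theorem hex_ne {m n : ℤ} (h : m ≠ 0 ∨ n ≠ 0) : (m : ℂ) + n * ω ≠ 0 := by
  intro h0
  have h3 : (0 : ℝ) < √3 := Real.sqrt_pos.2 (by norm_num)
  have him := congrArg Complex.im h0
  have hre := congrArg Complex.re h0
  rw [hex_im, Complex.zero_im] at him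
  rw [hex_re, Complex.zero_re] at hre
  have hn : (n : ℝ) = 0 := by
    rcases mul_eq_zero.1 him with h | h
    · exact h
    · exact absurd h (by positivity)
  have hm : (m : ℝ) = 0 := by rw [hn] at hre; linarith
  have hn' : n = 0 := by exact_mod_cast hn
  have hm' : m = 0 := by exact_mod_cast hm
  exact h.elim (fun h => h hm') (fun h => h hn')

/-- every complex number is within `‖s‖` of `s hex` -/
theorem cover (z s : ℂ) (hs : s ≠ 0) : ∃ l ∈ hex, ‖z - s * l‖ ≤ ‖s‖ := by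
  have h3 : (0 : ℝ) < √3 := Real.sqrt_pos.2 (by norm_num)
  set y : ℝ := (z / s).im / (√3 / 2) with hy
  set x : ℝ := (z / s).re - y / 2 with hx
  have hz : z / s = (x : ℂ) + (y : ℂ) * ω := by
    apply Complex.ext
    · rw [Complex.add_re, Complex.re_ofReal_mul, Complex.ofReal_re, ω_re, hx]
      ring
    · rw [Complex.add_im, Complex.im_ofReal_mul, Complex.ofReal_im, ω_im, hy]
      field_simp
      ring
  refine ⟨(round x : ℤ) + (round y : ℤ) * ω, ⟨round x, round y, rfl⟩, ?_⟩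
  have e : z - s * ((round x : ℤ) + (round y : ℤ) * ω) =
      s * (((x - round x : ℝ) : ℂ) + ((y - round y : ℝ) : ℂ) * ω) := by
    have : z = s * (z / s) := by field_simp
    rw [this, hz]
    push_cast
    ring
  rw [e, norm_mul]
  have h1 : ‖((x - round x : ℝ) : ℂ) + ((y - round y : ℝ) : ℂ) * ω‖ ≤ 1 := by
    refine (norm_add_le _ _).trans ?_
    rw [norm_mul, norm_ω, mul_one, Complex.norm_real, Complex.norm_real, Real.norm_eq_abs,
      Real.norm_eq_abs]
    have := abs_sub_round x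
    have := abs_sub_round y
    linarith
  calc ‖s‖ * _ ≤ ‖s‖ * 1 := mul_le_mul_of_nonneg_left h1 (norm_nonneg _)
    _ = ‖s‖ := mul_one _

/-- if `s α` is never real for nonzero `α` in the lattice, its imaginary part can be made
arbitrarily small -/
theorem small_im (s : ℂ) (hs : ∀ α ∈ hex, α ≠ 0 → (s * α).im ≠ 0) (ε : ℝ) (hε : 0 < ε) :
    ∃ α ∈ hex, (s * α).im ≠ 0 ∧ |(s * α).im| < ε := by
  let G : AddSubgroup ℝ :=
    { carrier := {x | ∃ m n : ℤ, x = m * s.im + n * (s * ω).im}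
      zero_mem' := ⟨0, 0, by simp⟩
      add_mem' := by
        rintro a b ⟨m, n, rfl⟩ ⟨p, q, rfl⟩
        exact ⟨m + p, n + q, by push_cast; ring⟩
      neg_mem' := by
        rintro a ⟨m, n, rfl⟩
        exact ⟨-m, -n, by push_cast; ring⟩ }
  have him : ∀ m n : ℤ, (s * (m + n * ω)).im = m * s.im + n * (s * ω).im := by
    intro m n
    have : s * (m + n * ω) = ((m : ℝ) : ℂ) * s + ((n : ℝ) : ℂ) * (s * ω) := by
      push_cast; ring
    rw [this, Complex.add_im, Complex.im_ofReal_mul, Complex.im_ofReal_mul]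
  rcases G.dense_or_cyclic with hd | ⟨a, ha⟩
  · obtain ⟨g, hg1, hg2⟩ := hd.exists_between hε
    obtain ⟨m, n, rfl⟩ := hg1
    refine ⟨m + n * ω, ⟨m, n, rfl⟩, ?_, ?_⟩
    · rw [him]; exact hg2.1.ne'
    · rw [him, abs_of_pos hg2.1]; exact hg2.2
  · exfalso
    have h1 : s.im ∈ G := ⟨1, 0, by simp⟩
    have h2 : (s * ω).im ∈ G := ⟨0, 1, by simp⟩
    rw [ha, AddSubgroup.mem_closure_singleton] at h1 h2
    obtain ⟨p, hp⟩ := h1
    obtain ⟨q, hq⟩ := h2
    have hp' : (p : ℝ) * a = s.im := by simpa using hp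
    have hq' : (q : ℝ) * a = (s * ω).im := by simpa using hq
    have hs1 : s.im ≠ 0 := by simpa using hs 1 hex_one one_ne_zero
    have hp0 : p ≠ 0 := by
      rintro rfl
      simp at hp'
      exact hs1 hp'.symm
    have hne : ((q : ℤ) : ℂ) + ((-p : ℤ) : ℂ) * ω ≠ 0 := hex_ne (Or.inr (by simpa using hp0))
    apply hs _ ⟨q, -p, rfl⟩ hne
    rw [him]
    rw [← hp', ← hq']
    push_cast
    ring

/-- crossing lemma: near every horizontal ray there is a point of `x + v hex` -/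
theorem crossing (v x : ℂ) (hv : v.im ≠ 0) : ∃ l ∈ hex, |(x + l * v).im| ≤ |v.im| ∧
    0 ≤ (x + l * v).re ∧ (x + l * v).re ≤ ‖v‖ ^ 2 / |v.im| + 2 * ‖v‖ := by
  have h3 : (0 : ℝ) < √3 := Real.sqrt_pos.2 (by norm_num)
  have h32 : √3 ≤ 2 := by
    rw [Real.sqrt_le_left (by norm_num)]; norm_num
  have hvn : 0 < ‖v‖ := by
    rw [norm_pos_iff]; rintro rfl; simp at hv
  have hvi : 0 < |v.im| := abs_pos.2 hv
  set S : ℝ := (√3 / 2) * ‖v‖ ^ 2 / |v.im| with hS
  have hSpos : 0 < S := by positivity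
  -- the crossing points
  set c : ℤ → ℝ := fun n => (x + n * ω * v).re - (x + n * ω * v).im / v.im * v.re with hc
  set d : ℝ := c 1 - c 0 with hd
  have hnorm : ‖v‖ ^ 2 = v.re ^ 2 + v.im ^ 2 := by
    rw [← Complex.normSq_eq_norm_sq, Complex.normSq_apply]; ring
  have hcn : ∀ n : ℤ, c n = c 0 + n * d := by
    intro n
    simp only [hd, hc]
    simp [ω]
    field_simp
    ring
  have hdval : d = -(√3 / 2) * ‖v‖ ^ 2 / v.im := by
    rw [hnorm]
    simp only [hd, hc]
    simp [ω]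
    field_simp
    ring
  have hdabs : |d| = S := by
    rw [hdval, hS, abs_div, abs_mul, abs_neg, abs_of_pos (by positivity : 0 < √3 / 2),
      abs_of_nonneg (by positivity : 0 ≤ ‖v‖ ^ 2)]
  have hdne : d ≠ 0 := by
    intro h; rw [h, abs_zero] at hdabs; linarith
  -- choose `n`
  obtain ⟨n, hn1, hn2⟩ : ∃ n : ℤ, ‖v‖ ≤ c n ∧ c n ≤ ‖v‖ + S := by
    set T : ℝ := ‖v‖ - c 0 with hT
    set k : ℤ := ⌈T / |d|⌉ with hk
    have hd0 : 0 < |d| := abs_pos.2 hdne
    have k1 : T ≤ k * |d| := by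
      have := Int.le_ceil (T / |d|)
      rwa [div_le_iff₀ hd0] at this
    have k2 : k * |d| ≤ T + |d| := by
      have := (Int.ceil_lt_add_one (T / |d|)).le
      have h4 : (k : ℝ) * |d| ≤ (T / |d| + 1) * |d| := mul_le_mul_of_nonneg_right this hd0.le
      have h5 : (T / |d| + 1) * |d| = T + |d| := by field_simp
      linarith
    rcases le_or_gt 0 d with h | h
    · rw [abs_of_nonneg h] at k1 k2 hdabs
      refine ⟨k, ?_, ?_⟩
      · rw [hcn]; linarith
      · rw [hcn]; linarith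
    · rw [abs_of_neg h] at k1 k2 hdabs
      refine ⟨-k, ?_, ?_⟩
      · rw [hcn]; push_cast; linarith
      · rw [hcn]; push_cast; linarith
  set t : ℝ := -(x + n * ω * v).im / v.im with ht
  set m : ℤ := round t with hm
  have hmt : |t - m| ≤ 1 / 2 := abs_sub_round t
  have e1 : (x + (m + n * ω) * v).im = (m - t) * v.im := by
    have : x + (m + n * ω) * v = (x + n * ω * v) + ((m : ℝ) : ℂ) * v := by push_cast; ring
    rw [this, Complex.add_im, Complex.im_ofReal_mul, ht]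
    field_simp
    ring
  have e2 : (x + (m + n * ω) * v).re = c n + (m - t) * v.re := by
    have : x + (m + n * ω) * v = (x + n * ω * v) + ((m : ℝ) : ℂ) * v := by push_cast; ring
    rw [this, Complex.add_re, Complex.re_ofReal_mul, ht]
    simp only [hc]
    field_simp
    ring
  refine ⟨m + n * ω, ⟨m, n, rfl⟩, ?_, ?_, ?_⟩
  · rw [e1, abs_mul, abs_sub_comm]
    calc |t - m| * |v.im| ≤ 1 * |v.im| :=
          mul_le_mul_of_nonneg_right (by linarith) (abs_nonneg _)
      _ = |v.im| := one_mul _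
  · have h5 : |(m - t) * v.re| ≤ ‖v‖ := by
      rw [abs_mul, abs_sub_comm]
      calc |t - m| * |v.re| ≤ 1 * ‖v‖ :=
            mul_le_mul (by linarith) (Complex.abs_re_le_norm v) (abs_nonneg _) (by norm_num)
        _ = ‖v‖ := one_mul _
    rw [e2]
    have := neg_abs_le ((m - t) * v.re)
    linarith
  · have h5 : |(m - t) * v.re| ≤ ‖v‖ := by
      rw [abs_mul, abs_sub_comm]
      calc |t - m| * |v.re| ≤ 1 * ‖v‖ :=
            mul_le_mul (by linarith) (Complex.abs_re_le_norm v) (abs_nonneg _) (by norm_num)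
        _ = ‖v‖ := one_mul _
    rw [e2]
    have := le_abs_self ((m - t) * v.re)
    have hSle : S ≤ ‖v‖ ^ 2 / |v.im| := by
      rw [hS]
      apply div_le_div_of_nonneg_right _ hvi.le
      have : 0 ≤ ‖v‖ ^ 2 := by positivity
      nlinarith
    linarith

end Pool.Agent.N758.TBG
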