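import Mathlib
import Pool.Agent.N758.TBG.Basic

/-!
# Unions of rotated copies of the triangular lattice: dense forests and uniform discreteness
-/

set_option autoImplicit false

namespace Pool.Agent.N758.TBG

open Complex

/-- the union of the sets `r_i hex + x_i` -/
def U {k : ℕ} (r x : Fin k → ℂ) : Set ℂ := ⋃ i, {p | ∃ z ∈ hex, p = r i * z + x i}

/-- dense forests -/
def Forest (D : Set ℂ) : Prop :=
  ∀ ε : ℝ, 0 < ε → ∃ V : ℝ, 0 < V ∧ ∀ a b : ℂ, dist a b = V →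
    ∃ y ∈ segment ℝ a b, ∃ p ∈ D, dist y p < ε

/-- uniformly discrete sets -/
def UD (D : Set ℂ) : Prop := ∃ δ : ℝ, 0 < δ ∧ ∀ p ∈ D, ∀ q ∈ D, p ≠ q → δ ≤ dist p q

/-- no vector of `r hex` is parallel to a vector of `s hex` -/
def NoCommon (r s : ℂ) : Prop :=
  ∀ α ∈ hex, ∀ β ∈ hex, α ≠ 0 → β ≠ 0 → ((starRingEnd ℂ) (s * β) * (r * α)).im ≠ 0

/-- for every unit vector `u` one of two lattices without common direction has a vector which is
almost but not exactly parallel to `u` -/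
theorem exists_vec {r s : ℂ} (hr : ‖r‖ = 1) (hs : ‖s‖ = 1) (h : NoCommon r s) (u : ℂ)
    (hu : ‖u‖ = 1) (ε : ℝ) (hε : 0 < ε) :
    (∃ α ∈ hex, (u * (r * α)).im ≠ 0 ∧ |(u * (r * α)).im| < ε) ∨
    (∃ α ∈ hex, (u * (s * α)).im ≠ 0 ∧ |(u * (s * α)).im| < ε) := by
  by_cases h1 : ∀ α ∈ hex, α ≠ 0 → ((u * r) * α).im ≠ 0
  · left
    obtain ⟨α, h2, h3, h4⟩ := small_im (u * r) h1 ε hε
    rw [mul_assoc] at h3 h4
    exact ⟨α, h2, h3, h4⟩
  · by_cases h2 : ∀ α ∈ hex, α ≠ 0 → ((u * s) * α).im ≠ 0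
    · right
      obtain ⟨α, h2, h3, h4⟩ := small_im (u * s) h2 ε hε
      rw [mul_assoc] at h3 h4
      exact ⟨α, h2, h3, h4⟩
    · exfalso
      push Not at h1 h2
      obtain ⟨α, hα, hα0, e1⟩ := h1
      obtain ⟨β, hβ, hβ0, e2⟩ := h2
      apply h α hα β hβ hα0 hβ0
      -- `conj (sβ) rα = conj (u s β) (u r α)`
      have hu2 : (starRingEnd ℂ) u * u = 1 := by
        rw [mul_comm, Complex.mul_conj, Complex.normSq_eq_norm_sq, hu]; simp
      have e : (starRingEnd ℂ) (s * β) * (r * α) =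
          (starRingEnd ℂ) (u * s * β) * (u * r * α) := by
        rw [map_mul, map_mul, map_mul]
        calc (starRingEnd ℂ) s * (starRingEnd ℂ) β * (r * α) =
            ((starRingEnd ℂ) u * u) * ((starRingEnd ℂ) s * (starRingEnd ℂ) β * (r * α)) := by
              rw [hu2, one_mul]
          _ = _ := by ring
      rw [e, Complex.mul_im, Complex.conj_im, Complex.conj_re, e1, e2]
      ring

/-- The index set of the cover of the unit circle. -/
theorem forest_of_noCommon {k : ℕ} (r x : Fin k → ℂ) (hr : ∀ i, ‖r i‖ = 1) (i₀ j₀ : Fin k)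
    (h : NoCommon (r i₀) (r j₀)) : Forest (U r x) := by
  intro ε hε
  -- the cover
  let O : Fin k × hex × ℕ → Set ℂ := fun c =>
    {u | 1 / ((c.2.2 : ℝ) + 1) < |(u * (r c.1 * (c.2.1 : ℂ))).im| ∧
      |(u * (r c.1 * (c.2.1 : ℂ))).im| < ε}
  have hO : ∀ c, IsOpen (O c) := by
    intro c
    have hc : Continuous fun u : ℂ => |(u * (r c.1 * (c.2.1 : ℂ))).im| := by fun_prop
    exact (isOpen_lt continuous_const hc).inter (isOpen_lt hc continuous_const)
  have hcover : Metric.sphere (0 : ℂ) 1 ⊆ ⋃ c, O c := by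
    intro u hu
    rw [mem_sphere_zero_iff_norm] at hu
    have key : ∃ i : Fin k, ∃ α ∈ hex, (u * (r i * α)).im ≠ 0 ∧ |(u * (r i * α)).im| < ε := by
      rcases exists_vec (hr i₀) (hr j₀) h u hu ε hε with h1 | h1
      · exact ⟨i₀, h1⟩
      · exact ⟨j₀, h1⟩
    obtain ⟨i, α, hα, h1, h2⟩ := key
    obtain ⟨n, hn⟩ := exists_nat_one_div_lt (abs_pos.2 h1)
    exact Set.mem_iUnion.2 ⟨(i, ⟨α, hα⟩, n), hn, h2⟩
  obtain ⟨t, ht⟩ := (isCompact_sphere (0 : ℂ) 1).elim_finite_subcover O hO hcover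
  -- the length
  let W : Fin k × hex × ℕ → ℝ := fun c =>
    ‖r c.1 * (c.2.1 : ℂ)‖ ^ 2 * ((c.2.2 : ℝ) + 1) + 2 * ‖r c.1 * (c.2.1 : ℂ)‖
  have hW : ∀ c, 0 ≤ W c := fun c => by positivity
  refine ⟨1 + ∑ c ∈ t, W c, by have := Finset.sum_nonneg fun c (_ : c ∈ t) => hW c; linarith, ?_⟩
  intro a b hab
  set V : ℝ := 1 + ∑ c ∈ t, W c with hV
  have hVpos : 0 < V := by
    have := Finset.sum_nonneg fun c (_ : c ∈ t) => hW c
    linarith
  -- the direction
  set w : ℂ := (b - a) / (V : ℂ) with hw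
  have hVc : (V : ℂ) ≠ 0 := by exact_mod_cast hVpos.ne'
  have hwn : ‖w‖ = 1 := by
    rw [hw, norm_div, Complex.norm_real, Real.norm_eq_abs, abs_of_pos hVpos, ← dist_eq_norm,
      dist_comm, hab, div_self hVpos.ne']
  have hw2 : (starRingEnd ℂ) w * w = 1 := by
    rw [mul_comm, Complex.mul_conj, Complex.normSq_eq_norm_sq, hwn]; simp
  set u : ℂ := (starRingEnd ℂ) w with hu
  have hun : ‖u‖ = 1 := by rw [hu, Complex.norm_conj, hwn]
  obtain ⟨c, hc, hc1, hc2⟩ : ∃ c ∈ t, 1 / ((c.2.2 : ℝ) + 1) < |(u * (r c.1 * (c.2.1 : ℂ))).im| ∧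
      |(u * (r c.1 * (c.2.1 : ℂ))).im| < ε := by
    have := ht (mem_sphere_zero_iff_norm.2 hun)
    rw [Set.mem_iUnion₂] at this
    obtain ⟨c, hc, h1⟩ := this
    exact ⟨c, hc, h1⟩
  obtain ⟨i, ⟨α, hα⟩, n⟩ := c
  simp only at hc1 hc2
  have hn : (0 : ℝ) < (n : ℝ) + 1 := by positivity
  have hvpos : 0 < |(u * (r i * α)).im| := lt_trans (by positivity) hc1
  obtain ⟨l, hl, h1, h2, h3⟩ := crossing (u * (r i * α)) (u * (x i - a)) (abs_pos.1 hvpos)
  set q : ℂ := u * (x i - a) + l * (u * (r i * α)) with hq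
  have hqV : q.re ≤ V := by
    have h4 : W (i, ⟨α, hα⟩, n) ≤ ∑ c ∈ t, W c :=
      Finset.single_le_sum (fun c _ => hW c) hc
    have h5 : ‖u * (r i * α)‖ ^ 2 / |(u * (r i * α)).im| + 2 * ‖u * (r i * α)‖ ≤
        W (i, ⟨α, hα⟩, n) := by
      have e : ‖u * (r i * α)‖ = ‖r i * α‖ := by rw [norm_mul, hun, one_mul]
      simp only [W]
      rw [e]
      have h6 : ‖r i * α‖ ^ 2 / |(u * (r i * α)).im| ≤ ‖r i * α‖ ^ 2 * ((n : ℝ) + 1) := by
        rw [div_le_iff₀ hvpos, mul_assoc]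
        apply le_mul_of_one_le_right (by positivity)
        rw [div_lt_iff₀ hn, mul_comm] at hc1
        exact hc1.le
      linarith
    linarith
  -- the point of the forest
  refine ⟨a + w * (q.re : ℂ), ?_, r i * (l * α) + x i, ?_, ?_⟩
  · rw [segment_eq_image_lineMap]
    refine ⟨q.re / V, ⟨div_nonneg h2 hVpos.le, (div_le_one hVpos).2 hqV⟩, ?_⟩
    rw [AffineMap.lineMap_apply, hw]
    simp only [vsub_eq_sub, vadd_eq_add, Complex.real_smul]
    push_cast
    field_simp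
    ring
  · exact Set.mem_iUnion.2 ⟨i, l * α, hex_mul hl hα, rfl⟩
  · -- `p = a + w q`
    have e1 : r i * (l * α) + x i = a + w * q := by
      rw [hq]
      have : a + w * (u * (x i - a) + l * (u * (r i * α))) =
          a + (u * w) * ((x i - a) + l * (r i * α)) := by ring
      rw [this, hw2]
      ring
    rw [e1, dist_eq_norm]
    have e2 : a + w * (q.re : ℂ) - (a + w * q) = w * ((q.re : ℂ) - q) := by ring
    rw [e2, norm_mul, hwn, one_mul]
    have e3 : (q.re : ℂ) - q = -((q.im : ℂ) * I) := by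
      apply Complex.ext <;> simp
    rw [e3, norm_neg, norm_mul, Complex.norm_I, mul_one, Complex.norm_real, Real.norm_eq_abs]
    exact lt_of_le_of_lt h1 hc2

/-- lattices which pairwise have a common direction do not form a dense forest -/
theorem not_forest {k : ℕ} (r x : Fin k → ℂ) (hr : ∀ i, ‖r i‖ = 1)
    (h : ∀ i j, ¬ NoCommon (r i) (r j)) : ¬ Forest (U r x) := by
  have h3 : (0 : ℝ) < √3 := Real.sqrt_pos.2 (by norm_num)
  -- a common direction `w`
  obtain ⟨w, hw1, hw⟩ : ∃ w : ℂ, ‖w‖ = 1 ∧ ∀ j, ∃ γ ∈ hex, γ ≠ 0 ∧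
      ((starRingEnd ℂ) w * (r j * γ)).im = 0 := by
    rcases Nat.eq_zero_or_pos k with hk | hk
    · subst hk
      exact ⟨1, by simp, fun j => j.elim0⟩
    · let i₀ : Fin k := ⟨0, hk⟩
      refine ⟨r i₀, hr i₀, fun j => ?_⟩
      have h1 := h i₀ j
      unfold NoCommon at h1
      push Not at h1
      obtain ⟨α, hα, β, hβ, hα0, hβ0, e⟩ := h1
      refine ⟨β * (starRingEnd ℂ) α, hex_mul hβ (hex_conj hα),
        mul_ne_zero hβ0 (by simpa using hα0), ?_⟩
      have e1 : (starRingEnd ℂ) (r i₀) * (r j * (β * (starRingEnd ℂ) α)) =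
          (starRingEnd ℂ) ((starRingEnd ℂ) (r j * β) * (r i₀ * α)) := by
        simp only [map_mul, Complex.conj_conj]
        ring
      rw [e1, Complex.conj_im, e, neg_zero]
  choose γ hγ hγ0 hγi using hw
  -- the heights
  set H : Fin k → ℝ := fun j =>
    ((starRingEnd ℂ) w * (r j * γ j)).re / ‖γ j‖ ^ 2 * (√3 / 2) with hH
  have hre : ∀ j, ((starRingEnd ℂ) w * (r j * γ j)).re ≠ 0 := by
    intro j h0
    have : (starRingEnd ℂ) w * (r j * γ j) = 0 := Complex.ext h0 (hγi j)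
    have h2 : ‖(starRingEnd ℂ) w * (r j * γ j)‖ = ‖γ j‖ := by
      rw [norm_mul, norm_mul, Complex.norm_conj, hw1, hr j, one_mul, one_mul]
    rw [this, norm_zero] at h2
    exact hγ0 j (norm_eq_zero.1 h2.symm)
  have hγn : ∀ j, 0 < ‖γ j‖ := fun j => norm_pos_iff.2 (hγ0 j)
  have hH0 : ∀ j, H j ≠ 0 := by
    intro j
    have := hre j
    have := hγn j
    simp only [hH]
    positivity
  have him : ∀ j, ∀ l ∈ hex, ∃ n : ℤ, ((starRingEnd ℂ) w * (r j * l)).im = n * H j := by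
    intro j l hl
    obtain ⟨m, n, e⟩ := hex_mul hl (hex_conj (hγ j))
    refine ⟨n, ?_⟩
    -- conj w * r_j * γ_j is a real number τ; l = (l conj γ) γ / |γ|²
    set τ : ℝ := ((starRingEnd ℂ) w * (r j * γ j)).re with hτ
    have e0 : (starRingEnd ℂ) w * (r j * γ j) = (τ : ℂ) := Complex.ext (by simp [hτ]) (by
      rw [hγi j]; simp)
    have e1 : γ j * (starRingEnd ℂ) (γ j) = ((‖γ j‖ ^ 2 : ℝ) : ℂ) := by
      rw [Complex.mul_conj, Complex.normSq_eq_norm_sq]
    have hne : ((‖γ j‖ ^ 2 : ℝ) : ℂ) ≠ 0 := by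
      exact_mod_cast (pow_pos (hγn j) 2).ne'
    have e2 : (starRingEnd ℂ) w * (r j * l) =
        ((τ / ‖γ j‖ ^ 2 : ℝ) : ℂ) * (l * (starRingEnd ℂ) (γ j)) := by
      have : ((τ / ‖γ j‖ ^ 2 : ℝ) : ℂ) = (τ : ℂ) / ((‖γ j‖ ^ 2 : ℝ) : ℂ) := by push_cast; ring
      rw [this, ← e0, ← e1]
      have hg : γ j * (starRingEnd ℂ) (γ j) ≠ 0 := by rw [e1]; exact hne
      have hg1 : γ j ≠ 0 := hγ0 j
      have hg2 : (starRingEnd ℂ) (γ j) ≠ 0 := by simpa using hg1
      field_simp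
    rw [e2, e, Complex.im_ofReal_mul, hex_im]
    simp only [hH]
    ring
  -- a height which is avoided
  set Y : Fin k → ℝ := fun j => ((starRingEnd ℂ) w * x j).im with hY
  have hclosed : IsClosed (⋃ j : Fin k, Set.range fun n : ℤ => Y j + n * H j) := by
    apply isClosed_iUnion_of_finite
    intro j
    have : IsClosed (Set.range ((↑) : ℤ → ℝ)) := Int.isClosedEmbedding_coe_real.isClosed_range
    have e : (Set.range fun n : ℤ => Y j + n * H j) =
        ((Homeomorph.mulRight₀ (H j) (hH0 j)).trans (Homeomorph.addLeft (Y j))) ''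
          (Set.range ((↑) : ℤ → ℝ)) := by
      rw [← Set.range_comp]
      rfl
    rw [e]
    exact (Homeomorph.isClosedMap _) _ this
  have hcount : (⋃ j : Fin k, Set.range fun n : ℤ => Y j + n * H j).Countable :=
    Set.countable_iUnion fun j => Set.countable_range _
  obtain ⟨y, hy⟩ : ∃ y : ℝ, y ∉ ⋃ j : Fin k, Set.range fun n : ℤ => Y j + n * H j := by
    by_contra hcon
    push Not at hcon
    exact Cardinal.not_countable_real ((Set.eq_univ_of_forall hcon) ▸ hcount)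
  obtain ⟨ε, hε, hball⟩ := Metric.isOpen_iff.1 hclosed.isOpen_compl y hy
  intro hF
  obtain ⟨V, hV, hseg⟩ := hF ε hε
  have hww : w * (starRingEnd ℂ) w = 1 := by
    rw [Complex.mul_conj, Complex.normSq_eq_norm_sq, hw1]; simp
  obtain ⟨z, hz, p, hp, hd⟩ := hseg (w * ((y : ℂ) * I)) (w * ((y : ℂ) * I + V)) (by
    rw [dist_eq_norm]
    have : w * ((y : ℂ) * I) - w * ((y : ℂ) * I + V) = -(w * V) := by ring
    rw [this, norm_neg, norm_mul, hw1, one_mul, Complex.norm_real, Real.norm_eq_abs, abs_of_pos hV])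
  have hzim : ((starRingEnd ℂ) w * z).im = y := by
    rw [segment_eq_image_lineMap] at hz
    obtain ⟨t, -, rfl⟩ := hz
    rw [AffineMap.lineMap_apply]
    simp only [vsub_eq_sub, vadd_eq_add, Complex.real_smul]
    have : (starRingEnd ℂ) w * ((t : ℂ) * (w * ((y : ℂ) * I + V) - w * ((y : ℂ) * I)) +
        w * ((y : ℂ) * I)) = (w * (starRingEnd ℂ) w) * ((t * V : ℝ) + (y : ℂ) * I) := by
      push_cast; ring
    rw [this, hww, one_mul]
    simp
  obtain ⟨j, l, hl, rfl⟩ := Set.mem_iUnion.1 hp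
  obtain ⟨n, hn⟩ := him j l hl
  have hpim : ((starRingEnd ℂ) w * (r j * l + x j)).im = Y j + n * H j := by
    rw [mul_add, Complex.add_im, hn]
    simp only [hY]
    ring
  have hlt : |Y j + n * H j - y| < ε := by
    rw [← hpim, ← hzim, ← Complex.sub_im, ← mul_sub]
    calc |((starRingEnd ℂ) w * (r j * l + x j - z)).im|
        ≤ ‖(starRingEnd ℂ) w * (r j * l + x j - z)‖ := Complex.abs_im_le_norm _
      _ = ‖r j * l + x j - z‖ := by rw [norm_mul, Complex.norm_conj, hw1, one_mul]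
      _ < ε := by rw [← dist_eq_norm, dist_comm]; exact hd
  have := hball (Metric.mem_ball.2 (by rw [Real.dist_eq]; exact hlt))
  exact this (Set.mem_iUnion.2 ⟨j, n, rfl⟩)

/-- two lattices without a common direction are not uniformly discrete -/
theorem not_ud {k : ℕ} (r x : Fin k → ℂ) (hr : ∀ i, ‖r i‖ = 1) (i₀ j₀ : Fin k)
    (h : NoCommon (r i₀) (r j₀)) : ¬ UD (U r x) := by
  rintro ⟨δ, hδ, hsep⟩
  have hri : r i₀ ≠ 0 := by rw [← norm_pos_iff, hr]; norm_num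
  have hrj : r j₀ ≠ 0 := by rw [← norm_pos_iff, hr]; norm_num
  -- small elements of `r_i hex - r_j hex`
  have hsmall : ∀ η : ℝ, 0 < η → ∃ α ∈ hex, ∃ β ∈ hex, r i₀ * α - r j₀ * β ≠ 0 ∧
      ‖r i₀ * α - r j₀ * β‖ < η := by
    intro η hη
    have hc : ∀ n : ℕ, ∃ β ∈ hex, ‖r i₀ * (n : ℂ) - r j₀ * β‖ ≤ ‖r j₀‖ :=
      fun n => cover (r i₀ * n) (r j₀) hrj
    choose β hβ hβn using hc
    let y : ℕ → ℂ := fun n => r i₀ * (n : ℂ) - r j₀ * β n
    have hy : ∀ n, y n ∈ Metric.closedBall (0 : ℂ) ‖r j₀‖ := fun n =>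
      mem_closedBall_zero_iff.2 (hβn n)
    obtain ⟨a, -, φ, hφ, hlim⟩ := (isCompact_closedBall (0 : ℂ) ‖r j₀‖).tendsto_subseq hy
    have hcau := hlim.cauchySeq
    rw [Metric.cauchySeq_iff] at hcau
    obtain ⟨N, hN⟩ := hcau η hη
    have h1 := hN (N + 1) (by omega) N le_rfl
    have hlt : φ N < φ (N + 1) := hφ (by omega)
    rw [dist_eq_norm] at h1
    have e : (y ∘ φ) (N + 1) - (y ∘ φ) N =
        r i₀ * (((φ (N + 1) : ℤ) - (φ N : ℤ) : ℤ) : ℂ) - r j₀ * (β (φ (N + 1)) - β (φ N)) := by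
      simp only [Function.comp_apply, y]
      push_cast
      ring
    rw [e] at h1
    refine ⟨_, hex_int _, _, hex_sub (hβ _) (hβ _), ?_, h1⟩
    intro h0
    have hne : ((((φ (N + 1) : ℤ) - (φ N : ℤ) : ℤ)) : ℂ) ≠ 0 := by
      rw [Int.cast_ne_zero]; omega
    have hβne : β (φ (N + 1)) - β (φ N) ≠ 0 := by
      intro hb
      rw [hb, mul_zero, sub_zero] at h0
      exact (mul_ne_zero hri hne) h0
    apply h _ (hex_int _) _ (hex_sub (hβ (φ (N + 1))) (hβ (φ N))) hne hβne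
    rw [sub_eq_zero.1 h0, mul_comm, Complex.mul_conj]
    simp
  obtain ⟨α, hα, β, hβ, hne, hlt⟩ := hsmall (δ / 4) (by linarith)
  -- approximate `δ / 2`
  obtain ⟨l, hl, hle⟩ := cover (((δ / 2 : ℝ) : ℂ) - (x i₀ - x j₀)) (r i₀ * α - r j₀ * β) hne
  set d : ℂ := (r i₀ * (α * l) + x i₀) - (r j₀ * (β * l) + x j₀) with hd
  have e1 : ((δ / 2 : ℝ) : ℂ) - (x i₀ - x j₀) - (r i₀ * α - r j₀ * β) * l =
      ((δ / 2 : ℝ) : ℂ) - d := by
    rw [hd]; ring
  rw [e1] at hle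
  have h1 : ‖((δ / 2 : ℝ) : ℂ) - d‖ < δ / 4 := lt_of_le_of_lt hle hlt
  have h2 : ‖((δ / 2 : ℝ) : ℂ)‖ = δ / 2 := by
    rw [Complex.norm_real, Real.norm_eq_abs, abs_of_pos (by linarith)]
  have h3 : ‖d‖ < δ := by
    have : d = ((δ / 2 : ℝ) : ℂ) - (((δ / 2 : ℝ) : ℂ) - d) := by ring
    rw [this]
    refine lt_of_le_of_lt (norm_sub_le _ _) ?_
    rw [h2]; linarith
  have h4 : d ≠ 0 := by
    intro h0
    rw [h0, sub_zero, h2] at h1
    linarith
  have hp : r i₀ * (α * l) + x i₀ ∈ U r x :=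
    Set.mem_iUnion.2 ⟨i₀, _, hex_mul hα hl, rfl⟩
  have hq : r j₀ * (β * l) + x j₀ ∈ U r x :=
    Set.mem_iUnion.2 ⟨j₀, _, hex_mul hβ hl, rfl⟩
  have := hsep _ hp _ hq (sub_ne_zero.1 h4)
  rw [dist_eq_norm, ← hd] at this
  linarith

/-- the characterisation of dense forests -/
theorem forest_iff {k : ℕ} (r x : Fin k → ℂ) (hr : ∀ i, ‖r i‖ = 1) :
    Forest (U r x) ↔ ∃ i j, NoCommon (r i) (r j) := by
  constructor
  · intro hF
    by_contra hcon
    push Not at hcon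
    exact not_forest r x hr hcon hF
  · rintro ⟨i, j, h⟩
    exact forest_of_noCommon r x hr i j h

/-- no union of rotated copies of the triangular lattice is a uniformly discrete dense forest -/
theorem never {k : ℕ} (r x : Fin k → ℂ) (hr : ∀ i, ‖r i‖ = 1) : ¬ (UD (U r x) ∧ Forest (U r x)) := by
  rintro ⟨h1, h2⟩
  obtain ⟨i, j, h⟩ := (forest_iff r x hr).1 h2
  exact not_ud r x hr i j h h1

end Pool.Agent.N758.TBG
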