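import Mathlib
import Pool.Agent.N758.TBG.Forest

/-!
# Angles: the bad differences form a countable set
-/

set_option autoImplicit false

namespace Pool.Agent.N758.TBG

open Complex MeasureTheory

noncomputable instance fact2pi : Fact (0 < 2 * Real.pi) := ⟨Real.two_pi_pos⟩

/-- `e^{iθ}` -/
noncomputable def rot (θ : AddCircle (2 * Real.pi)) : ℂ := (AddCircle.toCircle θ : ℂ)

theorem rot_coe (x : ℝ) : rot (x : AddCircle (2 * Real.pi)) = Complex.exp (x * I) := by
  unfold rot
  rw [AddCircle.toCircle_apply_mk, Circle.coe_exp]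
  congr 2
  push_cast
  field_simp

theorem norm_rot (θ : AddCircle (2 * Real.pi)) : ‖rot θ‖ = 1 := Circle.norm_coe _

/-- the differences for which the two lattices have a common direction -/
def Bad : Set (AddCircle (2 * Real.pi)) := {δ | ∃ γ ∈ hex, γ ≠ 0 ∧ (rot δ * γ).im = 0}

theorem bad_countable : Bad.Countable := by
  -- `rot δ` is determined by `γ` up to the sign
  have h1 : Bad ⊆ ⋃ γ ∈ hex, {δ | γ ≠ 0 ∧ (rot δ * γ).im = 0} := by
    rintro δ ⟨γ, hγ, h0, h⟩
    exact Set.mem_iUnion₂.2 ⟨γ, hγ, h0, h⟩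
  refine Set.Countable.mono h1 ((hex_countable).biUnion fun γ _ => ?_)
  have hinj : Function.Injective rot := by
    intro a b hab
    exact AddCircle.injective_toCircle (by positivity) (Subtype.ext hab)
  have h2 : {δ | γ ≠ 0 ∧ (rot δ * γ).im = 0} ⊆
      rot ⁻¹' {(‖γ‖ : ℂ) / γ, -(‖γ‖ : ℂ) / γ} := by
    rintro δ ⟨h0, h⟩
    have hn : ‖rot δ * γ‖ = ‖γ‖ := by rw [norm_mul, norm_rot, one_mul]
    set t : ℝ := (rot δ * γ).re with ht
    have e : rot δ * γ = (t : ℂ) := Complex.ext (by simp [ht]) (by rw [h]; simp)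
    rw [e, Complex.norm_real, Real.norm_eq_abs] at hn
    have e2 : rot δ = (t : ℂ) / γ := by rw [← e]; field_simp
    rcases abs_choice t with h3 | h3
    · left
      rw [e2, ← hn, h3]
    · right
      rw [Set.mem_singleton_iff, e2, ← hn, h3]
      push_cast
      ring
  exact Set.Countable.mono h2 (Set.Countable.preimage_of_injOn (Set.toFinite _).countable
    hinj.injOn)

theorem noCommon_of_not_bad {a b : AddCircle (2 * Real.pi)} (h : a - b ∉ Bad) :
    NoCommon (rot a) (rot b) := by
  intro α hα β hβ hα0 hβ0 h0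
  apply h
  refine ⟨α * (starRingEnd ℂ) β, hex_mul hα (hex_conj hβ), mul_ne_zero hα0 (by simpa using hβ0), ?_⟩
  have e : rot (a - b) = rot a * (starRingEnd ℂ) (rot b) := by
    unfold rot
    rw [sub_eq_add_neg, AddCircle.toCircle_add, AddCircle.toCircle_neg, Circle.coe_mul,
      Circle.coe_inv_eq_conj]
  rw [e]
  have e2 : rot a * (starRingEnd ℂ) (rot b) * (α * (starRingEnd ℂ) β) =
      (starRingEnd ℂ) (rot b * β) * (rot a * α) := by
    rw [map_mul]; ring
  rw [e2, h0]

theorem ae_not_bad {k : ℕ} (i j : Fin k) (hij : i ≠ j) :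
    ∀ᵐ θ : Fin k → AddCircle (2 * Real.pi), θ i - θ j ∉ Bad := by
  let φ : (Fin k → AddCircle (2 * Real.pi)) →+ AddCircle (2 * Real.pi) :=
    { toFun := fun θ => θ i - θ j
      map_zero' := by simp
      map_add' := by intro a b; simp; abel }
  have hφc : Continuous φ := by
    change Continuous fun θ : Fin k → AddCircle (2 * Real.pi) => θ i - θ j
    fun_prop
  have hφs : Function.Surjective φ := by
    intro t
    refine ⟨Function.update 0 i t, ?_⟩
    change Function.update (0 : Fin k → AddCircle (2 * Real.pi)) i t i -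
      Function.update (0 : Fin k → AddCircle (2 * Real.pi)) i t j = t
    rw [Function.update_self, Function.update_of_ne hij.symm]
    simp
  have hH : (Measure.map φ (volume : Measure (Fin k → AddCircle (2 * Real.pi)))).IsAddHaarMeasure :=
    Measure.isAddHaarMeasure_map_of_isFiniteMeasure _ φ hφc hφs
  have hne : (nhdsWithin (0 : AddCircle (2 * Real.pi)) {0}ᶜ).NeBot := by
    rw [← mem_closure_iff_nhdsWithin_neBot]
    have hlim : Filter.Tendsto (fun n : ℕ => ((1 / ((n : ℝ) + 1) : ℝ) : AddCircle (2 * Real.pi)))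
        Filter.atTop (nhds ((0 : ℝ) : AddCircle (2 * Real.pi))) :=
      ((AddCircle.continuous_mk' (2 * Real.pi)).tendsto 0).comp tendsto_one_div_add_atTop_nhds_zero_nat
    refine mem_closure_of_tendsto hlim (Filter.Eventually.of_forall fun n => ?_)
    rw [Set.mem_compl_iff, Set.mem_singleton_iff]
    have hpos : (0 : ℝ) < 1 / ((n : ℝ) + 1) := by positivity
    have hle : 1 / ((n : ℝ) + 1) ≤ 1 := by
      rw [div_le_one (by positivity)]
      have : (0 : ℝ) ≤ n := by positivity
      linarith
    have hpi := Real.pi_gt_three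
    rw [AddCircle.coe_eq_zero_iff_of_mem_Ico ⟨hpos.le, by linarith⟩]
    exact hpos.ne'
  have hnull := Measure.IsAddHaarMeasure.nullSingletonClass
    (Measure.map φ (volume : Measure (Fin k → AddCircle (2 * Real.pi))))
  have h0 : Measure.map φ (volume : Measure (Fin k → AddCircle (2 * Real.pi))) Bad = 0 :=
    bad_countable.measure_zero _
  rw [Measure.map_apply hφc.measurable bad_countable.measurableSet] at h0
  exact measure_eq_zero_iff_ae_notMem.1 h0

end Pool.Agent.N758.TBG
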